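import Pool.Agent.P8H64.Pile.Fixed

set_option autoImplicit false

/-!
# Point stabilizers of projective piles over free profinite completions (MP_f46d86_al, Q1)

Definitions: `Pile`, `Pile.stab`, `Mor`, `IsEpi`, `IsRigid`, `IsProjective` are in
`Pool/Agent/Q24/PF/Pil.lean`; `IsProfiniteCompletion`, `IsFreeFactor` are in
`Pool/Agent/P8H64/Pile/Factor.lean`; `comm2 = a b a⁻¹ b⁻¹` is in `Pool/Agent/P8H64/Pile/Fixed.lean`.

Let `F` be a finitely generated free group, `G` its profinite completion, `(G, T)` a projective pile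
and `1 ≠ g ∈ F ∩ G_t`.

* If `G_t ≠ G`, then `g` lies in a non-trivial free factor of `F`. Suppose not. Then no nonzero
  derivation `F → k[F]`, `k = ℤ/2`, kills `g` (kernels of derivations are free factors), that is,
  the Fox derivatives `∂_i g` are right linearly independent over `k[F]`. So every system
  `m * ∂_i g = a_i` over a finite right module `A` has a solution `m` in a finite module `W ⊇ A`
  (`overmodule`; this uses the completion argument of M. Hall and Lewin). Apply this to
  `A = Map(G / G₁, k)`, where `G₁ ≥ G_t` is a proper open subgroup. The derivation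
  `c : F → A^*`, `c f φ = φ (f x₀) - φ (x₀)`, vanishes on `G₁`; a rigid embedding problem
  (`ext2`) shows that it lifts to a derivation `C : G → W^*` which vanishes on `G_t`. Then
  `0 = C g m = ∑ C x_i (m * ∂_i g) = ∑ c x_i a_i` for all `a_i ∈ A`, hence `c = 0`, a contradiction.
* The points `t` with `G_t = G` have to be excluded: for every profinite group `G` the pile
  `(G, {*} ⊔ G)` with a fixed point and a regular orbit is projective.
-/

namespace Pool.Agent.Results.MP_f46d86_al.ProperStabilizers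

open Pool.Agent.Q24.PF Pool.Agent.P8H64.Pile

/-- (1) Let `F` be a finitely generated free group with the profinite completion `ι : F → G`, let
`(G, T)` be a projective pile, `1 ≠ g ∈ F` and `t ∈ T` with `g ∈ G_t ≠ G`. Then `g` lies in a
non-trivial free factor of `F`.
(2) For every profinite group `G` there is a projective pile `(G, T)` with more than one point and
with a point fixed by `G`.
(3) The hypothesis `G_t ≠ G` cannot be omitted in (1): for the free group `F` on `a, b` and
`g = a b a⁻¹ b⁻¹ ≠ 1` there are a projective pile `(G, T)` over the profinite completion `G` of `F`,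
with more than one point, and `t ∈ T` with `g ∈ G_t`, but no free factor `A ≠ F` of `F`
contains `g`. -/
theorem result :
    (∀ (F : Type) [Group F] [IsFreeGroup F] [Group.FG F] (G : Type) [Group G]
      [TopologicalSpace G] [IsTopologicalGroup G] [CompactSpace G] [T2Space G]
      [TotallyDisconnectedSpace G] (ι : F →* G), IsProfiniteCompletion ι →
      ∀ (T : Type) [TopologicalSpace T] [CompactSpace T] [T2Space T] [TotallyDisconnectedSpace T]
        (𝒢 : Pile G T), IsProjective 𝒢 → ∀ g : F, g ≠ 1 → ∀ t : T, ι g ∈ 𝒢.stab t →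
          𝒢.stab t ≠ ⊤ → ∃ A : Subgroup F, IsFreeFactor A ∧ A ≠ ⊥ ∧ A ≠ ⊤ ∧ g ∈ A) ∧
    (∀ (G : Type) [Group G] [TopologicalSpace G] [IsTopologicalGroup G] [CompactSpace G]
      [T2Space G] [TotallyDisconnectedSpace G],
      ∃ (T : Type) (_ : TopologicalSpace T) (_ : CompactSpace T) (_ : T2Space T)
        (_ : TotallyDisconnectedSpace T) (𝒢 : Pile G T), IsProjective 𝒢 ∧ Nontrivial T ∧
          ∃ t : T, 𝒢.stab t = ⊤) ∧
    ∃ (G : Type) (_ : Group G) (_ : TopologicalSpace G) (_ : IsTopologicalGroup G)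
      (_ : CompactSpace G) (_ : T2Space G) (_ : TotallyDisconnectedSpace G)
      (ι : FreeGroup (Fin 2) →* G) (T : Type) (_ : TopologicalSpace T) (_ : CompactSpace T)
      (_ : T2Space T) (_ : TotallyDisconnectedSpace T) (𝒢 : Pile G T) (t : T),
      IsProfiniteCompletion ι ∧ IsProjective 𝒢 ∧ Nontrivial T ∧ comm2 ≠ 1 ∧
        ι comm2 ∈ 𝒢.stab t ∧
        ∀ A : Subgroup (FreeGroup (Fin 2)), IsFreeFactor A → comm2 ∈ A → A = ⊤ := by
  have hfix : ∀ (G : Type) [Group G] [TopologicalSpace G] [IsTopologicalGroup G] [CompactSpace G]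
      [T2Space G] [TotallyDisconnectedSpace G],
      ∃ (T : Type) (_ : TopologicalSpace T) (_ : CompactSpace T) (_ : T2Space T)
        (_ : TotallyDisconnectedSpace T) (𝒢 : Pile G T), IsProjective 𝒢 ∧ Nontrivial T ∧
          ∃ t : T, 𝒢.stab t = ⊤ := by
    intro G _ _ _ _ _ _
    refine ⟨Unit ⊕ G, inferInstance, inferInstance, inferInstance, inferInstance, fixedPile G,
      fixedPile_projective G, ⟨Sum.inl (), Sum.inr 1, ?_⟩, Sum.inl (), fixedPile_stab G⟩
    intro h
    cases h
  refine ⟨?_, hfix, ?_⟩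
  · intro F _ _ _ G _ _ _ _ _ _ ι hι T _ _ _ _ 𝒢 h𝒢 g hg t hgt ht
    obtain ⟨A, hA, hgA, hne⟩ := main F G ι hι T 𝒢 h𝒢 g t hgt ht
    refine ⟨A, hA, ?_, hne, hgA⟩
    rintro rfl
    exact hg (Subgroup.mem_bot.1 hgA)
  · obtain ⟨G, i1, i2, i3, i4, i5, i6, ι, hι⟩ := exists_profiniteCompletion (FreeGroup (Fin 2))
    obtain ⟨T, j1, j2, j3, j4, 𝒢, h𝒢, hT, t, ht⟩ := hfix G
    refine ⟨G, i1, i2, i3, i4, i5, i6, ι, T, j1, j2, j3, j4, 𝒢, t, hι, h𝒢, hT, comm2_ne_one, ?_,
      fun A hA h => eq_top_of_commutator_mem A hA h⟩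
    rw [ht]
    exact Subgroup.mem_top _

end Pool.Agent.Results.MP_f46d86_al.ProperStabilizers
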